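import Pool.Agent.Helper33.SVv.H5
import Pool.Agent.Helper60.SVv.H4

/-!
# SVv, last step: exponent `7/12` and moment `14` at almost every centre, on any straight path
-/

open MeasureTheory Real Set Filter Topology

set_option autoImplicit false

namespace Pool.Agent.Helper33.SVv

open Pool.Agent.Helper22.AE (IsSupp)
open Pool.Agent.Helper42.AC (Ev Fix)

theorem ae_ev {H : ℝ → ℝ} (hH : IsSupp H) (h5 : ContDiff ℝ 5 H) (v : ℝ × ℝ) :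
    ∀ᵐ c ∂(volume.restrict (Icc (0 : ℝ) 1 ×ˢ Icc (0 : ℝ) 1)), Fix (Ev H v c) (7 / 12) 14 := by
  refine ae_fix_of ?_
  have h1 : ∀ j : ℕ, ∀ᵐ c ∂(volume.restrict (Icc (0 : ℝ) 1 ×ˢ Icc (0 : ℝ) 1)), ∃ N0 : ℕ, ∀ N : ℕ, N0 ≤ N →
      (∀ R ∈ Icc ((2 : ℝ) ^ N) (2 * 2 ^ N), Ev H v c R ≤ ((2 : ℝ) ^ N) ^ (7 / 12 + 1 / ((j : ℝ) + 1))) ∧
        ∫ R in Icc ((2 : ℝ) ^ N) (2 * 2 ^ N), Ev H v c R ^ (14 : ℝ) ≤ ((2 : ℝ) ^ N) ^ (8 + 1 / ((j : ℝ) + 1)) :=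
    fun j => Pool.Agent.Helper60.SVv.ae_range hH h5 v (by positivity)
  rw [← ae_all_iff] at h1
  filter_upwards [h1] with c hc ε hε
  obtain ⟨j, hj⟩ := exists_nat_one_div_lt hε
  obtain ⟨N0, h2⟩ := hc j
  refine ⟨N0, fun N hN => ⟨fun R hR => ((h2 N hN).1 R hR).trans ?_, (h2 N hN).2.trans ?_⟩⟩
  · exact Real.rpow_le_rpow_of_exponent_le (one_le_pow₀ (by norm_num)) (by linarith)
  · exact Real.rpow_le_rpow_of_exponent_le (one_le_pow₀ (by norm_num)) (by linarith)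

end Pool.Agent.Helper33.SVv
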