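import Pool.Agent.Helper42.AC.All
import Pool.Agent.Helper60.WC.SupE
import Pool.Agent.Helper60.MM.M8

/-!
# SVv, block H5: from the blocks `[2^N, 2^(N+1)]` to the form `Fix`, for any function `H` and any path `c + R v`
-/

open MeasureTheory Real Set Filter Topology

set_option autoImplicit false

namespace Pool.Agent.Helper33.SVv

open Pool.Agent.Helper22.AE (area)
open Pool.Agent.Helper22.AC (cntc)
open Pool.Agent.Helper42.AC (Ev Fix)
open Pool.Agent.Helper60.WC (BB BB_mono)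

/-- the centre on a straight path is a linear term in the support function -/
theorem cntc_path (H : ℝ → ℝ) (a w : ℝ × ℝ) (R : ℝ) :
    cntc H (a.1 + R * w.1, a.2 + R * w.2) R = cntc (fun θ => H θ + (w.1 * cos θ + w.2 * sin θ)) a R := by
  unfold cntc
  congr 1
  refine Nat.card_congr (Equiv.subtypeEquivRight fun k => ?_)
  refine forall_congr' fun θ => ?_
  simp only
  constructor <;> intro h <;> linarith

theorem ev_meas (H : ℝ → ℝ) (v c : ℝ × ℝ) : Measurable (Ev H v c) := by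
  have h1 : Ev H v c = fun R => |cntc (fun θ => H θ + (v.1 * cos θ + v.2 * sin θ)) c R - area H * R ^ 2| := by
    funext R
    unfold Ev
    rw [cntc_path]
  rw [h1]
  exact ((Pool.Agent.Helper60.MM.cntc_radius_meas _ c).sub (by fun_prop)).abs

theorem ev_nonneg (H : ℝ → ℝ) (v c : ℝ × ℝ) (R : ℝ) : 0 ≤ Ev H v c R := abs_nonneg _

theorem ev_le (H : ℝ → ℝ) (v c : ℝ × ℝ) {R Y : ℝ} (h0 : 0 ≤ R) (h : R ≤ Y) : Ev H v c R ≤ BB H Y + area H * Y ^ 2 := by
  have hA : 0 ≤ area H := ENNReal.toReal_nonneg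
  refine (Pool.Agent.Helper60.WC.abs_le H _ R).trans (add_le_add (BB_mono h0 h) ?_)
  exact mul_le_mul_of_nonneg_left (pow_le_pow_left₀ h0 h 2) hA

/-- the lower integral of a power on one block -/
theorem block_lint {H : ℝ → ℝ} {v c : ℝ × ℝ} {a b B : ℝ} (ha : 0 ≤ a) (h : ∫ R in Icc a b, Ev H v c R ^ (14 : ℝ) ≤ B) :
    ∫⁻ R in Icc a b, ENNReal.ofReal (Ev H v c R ^ 14) ≤ ENNReal.ofReal B := by
  have e : ∀ R : ℝ, Ev H v c R ^ 14 = Ev H v c R ^ (14 : ℝ) := fun R => by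
    rw [← Real.rpow_natCast]
    norm_num
  have hI : IntegrableOn (fun R => Ev H v c R ^ 14) (Icc a b) := by
    refine Measure.integrableOn_of_bounded (M := (BB H b + area H * b ^ 2) ^ 14) measure_Icc_lt_top.ne
      ((ev_meas H v c).pow_const 14).aestronglyMeasurable ?_
    refine (ae_restrict_iff' measurableSet_Icc).mpr (Eventually.of_forall fun R hR => ?_)
    rw [Real.norm_of_nonneg (pow_nonneg (ev_nonneg H v c R) 14)]
    exact pow_le_pow_left₀ (ev_nonneg H v c R) (ev_le H v c (ha.trans hR.1) hR.2) 14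
  rw [← ofReal_integral_eq_lintegral_ofReal hI (Eventually.of_forall fun R => pow_nonneg (ev_nonneg H v c R) 14)]
  refine ENNReal.ofReal_le_ofReal (le_trans (le_of_eq ?_) h)
  exact integral_congr_ae (Eventually.of_forall fun R => e R)

/-- a pointwise bound and one moment, from the blocks -/
theorem fix_of {H : ℝ → ℝ} {v c : ℝ × ℝ} (hg : ∀ ε : ℝ, 0 < ε → ∃ N0 : ℕ, ∀ N : ℕ, N0 ≤ N →
    (∀ R ∈ Icc ((2 : ℝ) ^ N) (2 * 2 ^ N), Ev H v c R ≤ ((2 : ℝ) ^ N) ^ (7 / 12 + ε)) ∧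
      ∫ R in Icc ((2 : ℝ) ^ N) (2 * 2 ^ N), Ev H v c R ^ (14 : ℝ) ≤ ((2 : ℝ) ^ N) ^ (8 + ε)) :
    Fix (Ev H v c) (7 / 12) 14 := by
  constructor
  · intro ε hε
    obtain ⟨N0, hN0⟩ := hg ε hε
    refine ⟨1 + |BB H (2 ^ N0) + area H * (2 ^ N0) ^ 2|, fun R hR => ?_⟩
    have hR0 : 0 ≤ R := by linarith
    have hp1 : 1 ≤ R ^ (7 / 12 + ε) := Real.one_le_rpow hR (by positivity)
    have hab := abs_nonneg (BB H (2 ^ N0) + area H * (2 ^ N0) ^ 2)
    rcases lt_or_ge R (2 ^ N0) with h | h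
    · have h1 := ev_le H v c hR0 h.le
      have h2 := le_abs_self (BB H (2 ^ N0) + area H * (2 ^ N0) ^ 2)
      calc Ev H v c R ≤ (1 + |BB H (2 ^ N0) + area H * (2 ^ N0) ^ 2|) * 1 := by linarith
        _ ≤ _ := mul_le_mul_of_nonneg_left hp1 (by linarith)
    · obtain ⟨N, h1, h2⟩ := exists_nat_pow_near hR (by norm_num : (1 : ℝ) < 2)
      have h3 : N0 < N + 1 := (pow_lt_pow_iff_right₀ (by norm_num : (1 : ℝ) < 2)).mp (h.trans_lt h2)
      have h4 : R ≤ 2 * 2 ^ N := by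
        rw [pow_succ] at h2
        linarith
      have h5 := (hN0 N (by omega)).1 R ⟨h1, h4⟩
      have h6 : ((2 : ℝ) ^ N) ^ (7 / 12 + ε) ≤ R ^ (7 / 12 + ε) := Real.rpow_le_rpow (by positivity) h1 (by positivity)
      calc Ev H v c R ≤ 1 * R ^ (7 / 12 + ε) := by linarith
        _ ≤ _ := mul_le_mul_of_nonneg_right (by linarith) (by positivity)
  · intro ε hε
    obtain ⟨N0, hN0⟩ := hg ε hε
    set M : ℝ := BB H (2 * 2 ^ N0) + area H * (2 * 2 ^ N0) ^ 2 with hM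
    refine ⟨1 + 2 ^ (8 + ε) + |M| ^ 14 * (2 * 2 ^ N0), fun X hX => ?_⟩
    have hX0 : 0 < X := by linarith
    have e8 : 1 + ((14 : ℕ) : ℝ) / 2 + ε = 8 + ε := by norm_num
    rw [e8]
    have hp1 : 1 ≤ X ^ (8 + ε) := Real.one_le_rpow hX (by positivity)
    have hc0 : 0 ≤ |M| ^ 14 * (2 * 2 ^ N0) := by positivity
    obtain ⟨N, h1, h2⟩ := exists_nat_pow_near hX (by norm_num : (1 : ℝ) < 2)
    rcases lt_or_ge N N0 with h | h
    · have h3 : X ≤ 2 ^ N0 := h2.le.trans (pow_le_pow_right₀ (by norm_num) (by omega))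
      have h4 : ∀ R ∈ Icc X (2 * X), ENNReal.ofReal (Ev H v c R ^ 14) ≤ ENNReal.ofReal (|M| ^ 14) := fun R hR => by
        refine ENNReal.ofReal_le_ofReal (pow_le_pow_left₀ (ev_nonneg H v c R) ?_ 14)
        exact (ev_le H v c (hX0.le.trans hR.1) (hR.2.trans (by linarith))).trans (le_abs_self M)
      calc ∫⁻ R in Icc X (2 * X), ENNReal.ofReal (Ev H v c R ^ 14)
          ≤ ∫⁻ R in Icc X (2 * X), ENNReal.ofReal (|M| ^ 14) := setLIntegral_mono measurable_const h4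
        _ = ENNReal.ofReal (|M| ^ 14 * X) := by
            rw [setLIntegral_const, Real.volume_Icc, ← ENNReal.ofReal_mul (by positivity)]
            congr 1
            ring
        _ ≤ _ := by
            refine ENNReal.ofReal_le_ofReal ?_
            have h5 : |M| ^ 14 * X ≤ |M| ^ 14 * (2 * 2 ^ N0) :=
              mul_le_mul_of_nonneg_left (by linarith [pow_pos (by norm_num : (0 : ℝ) < 2) N0]) (by positivity)
            have h6 : (0 : ℝ) ≤ 2 ^ (8 + ε) := by positivity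
            calc |M| ^ 14 * X ≤ (1 + 2 ^ (8 + ε) + |M| ^ 14 * (2 * 2 ^ N0)) * 1 := by linarith
              _ ≤ _ := mul_le_mul_of_nonneg_left hp1 (by positivity)
    · have hs : Icc X (2 * X) ⊆ Icc ((2 : ℝ) ^ N) (2 * 2 ^ N) ∪ Icc ((2 : ℝ) ^ (N + 1)) (2 * 2 ^ (N + 1)) := fun R hR => by
        have h3 : (2 : ℝ) ^ (N + 1) = 2 * 2 ^ N := by ring
        rcases le_total R (2 * 2 ^ N) with h4 | h4
        · exact Or.inl ⟨h1.trans hR.1, h4⟩
        · exact Or.inr ⟨by rw [h3]; exact h4, hR.2.trans (by linarith)⟩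
      have h3 := block_lint (by positivity) (hN0 N h).2
      have h4 := block_lint (by positivity) (hN0 (N + 1) (by omega)).2
      have h5 : ((2 : ℝ) ^ N) ^ (8 + ε) ≤ X ^ (8 + ε) := Real.rpow_le_rpow (by positivity) h1 (by positivity)
      have h6 : ((2 : ℝ) ^ (N + 1)) ^ (8 + ε) ≤ 2 ^ (8 + ε) * X ^ (8 + ε) := by
        rw [← Real.mul_rpow (by norm_num) hX0.le]
        refine Real.rpow_le_rpow (by positivity) ?_ (by positivity)
        rw [pow_succ]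
        linarith
      calc ∫⁻ R in Icc X (2 * X), ENNReal.ofReal (Ev H v c R ^ 14)
          ≤ ∫⁻ R in Icc ((2 : ℝ) ^ N) (2 * 2 ^ N) ∪ Icc ((2 : ℝ) ^ (N + 1)) (2 * 2 ^ (N + 1)), ENNReal.ofReal (Ev H v c R ^ 14) :=
            lintegral_mono_set hs
        _ ≤ ENNReal.ofReal (((2 : ℝ) ^ N) ^ (8 + ε)) + ENNReal.ofReal (((2 : ℝ) ^ (N + 1)) ^ (8 + ε)) :=
            (lintegral_union_le _ _ _).trans (add_le_add h3 h4)
        _ = ENNReal.ofReal (((2 : ℝ) ^ N) ^ (8 + ε) + ((2 : ℝ) ^ (N + 1)) ^ (8 + ε)) := (ENNReal.ofReal_add (by positivity) (by positivity)).symm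
        _ ≤ _ := by
            refine ENNReal.ofReal_le_ofReal ?_
            have h7 : 0 ≤ |M| ^ 14 * (2 * 2 ^ N0) * X ^ (8 + ε) := by positivity
            have h8 : (1 + 2 ^ (8 + ε) + |M| ^ 14 * (2 * 2 ^ N0)) * X ^ (8 + ε) =
                X ^ (8 + ε) + 2 ^ (8 + ε) * X ^ (8 + ε) + |M| ^ 14 * (2 * 2 ^ N0) * X ^ (8 + ε) := by ring
            rw [h8]
            linarith

/-- almost every centre of a set -/
theorem ae_fix_of {H : ℝ → ℝ} {v : ℝ × ℝ} {μ : Measure (ℝ × ℝ)} (hg : ∀ᵐ c ∂μ, ∀ ε : ℝ, 0 < ε → ∃ N0 : ℕ, ∀ N : ℕ, N0 ≤ N →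
    (∀ R ∈ Icc ((2 : ℝ) ^ N) (2 * 2 ^ N), Ev H v c R ≤ ((2 : ℝ) ^ N) ^ (7 / 12 + ε)) ∧
      ∫ R in Icc ((2 : ℝ) ^ N) (2 * 2 ^ N), Ev H v c R ^ (14 : ℝ) ≤ ((2 : ℝ) ^ N) ^ (8 + ε)) :
    ∀ᵐ c ∂μ, Fix (Ev H v c) (7 / 12) 14 := by
  filter_upwards [hg] with c hc
  exact fix_of hc

end Pool.Agent.Helper33.SVv
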